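import Mathlib

namespace Pool.Agent.H18.Fat

open MvPolynomial Finset

/-- The exponent vectors of degree `d` in `n` variables. -/
noncomputable def mons (n d : ℕ) : Finset (Fin n →₀ ℕ) := finsuppAntidiag univ d

theorem mem_mons {n d : ℕ} {α : Fin n →₀ ℕ} : α ∈ mons n d ↔ α.degree = d := by
  unfold mons
  rw [mem_finsuppAntidiag, Finsupp.degree_eq_sum]
  simp

theorem card_mons (n d : ℕ) : (mons (n + 1) d).card = (d + n).choose n := by
  unfold mons
  rw [card_finsuppAntidiag_nat_eq_choose]
  simp only [card_univ, Fintype.card_fin]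
  have h : n + 1 + d - 1 = d + n := by omega
  rw [h]
  exact Nat.choose_symm_add

/-- Taylor coefficients of monomials. -/
noncomputable def tc {n : ℕ} (q : Fin n → ℂ) (α β : Fin n →₀ ℕ) : ℂ :=
  ∏ j, (((α j).choose (β j) : ℂ) * q j ^ (α j - β j))

/-- Coefficient vectors to homogeneous polynomials. -/
noncomputable def toPoly (n d : ℕ) : (mons n d → ℂ) →ₗ[ℂ] MvPolynomial (Fin n) ℂ where
  toFun f := ∑ α : mons n d, monomial α.1 (f α)
  map_add' f g := by
    rw [← sum_add_distrib]
    exact sum_congr rfl fun α _ => by simp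
  map_smul' c f := by
    rw [RingHom.id_apply, smul_sum]
    exact sum_congr rfl fun α _ => by simp [smul_monomial]

theorem toPoly_apply {n d : ℕ} (f : mons n d → ℂ) :
    toPoly n d f = ∑ α : mons n d, monomial α.1 (f α) := rfl

/-- Termwise Euler relation. -/
theorem tc_euler {n : ℕ} (q : Fin n → ℂ) (α β : Fin n →₀ ℕ) :
    ∑ j, q j * ((β j : ℂ) + 1) * tc q α (β + Finsupp.single j 1) =
      ((α.degree : ℂ) - (β.degree : ℂ)) * tc q α β := by
  classical
  have h1 : ∀ j, q j * ((β j : ℂ) + 1) * tc q α (β + Finsupp.single j 1) =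
      ((α j : ℂ) - (β j : ℂ)) * tc q α β := by
    intro j
    unfold tc
    rw [← mul_prod_erase univ _ (mem_univ j), ← mul_prod_erase univ
      (fun i => (((α i).choose (β i) : ℂ) * q i ^ (α i - β i))) (mem_univ j)]
    have h2 : ∏ x ∈ univ.erase j, (((α x).choose ((β + Finsupp.single j 1 : Fin n →₀ ℕ) x) : ℂ) *
        q x ^ (α x - (β + Finsupp.single j 1 : Fin n →₀ ℕ) x)) =
        ∏ x ∈ univ.erase j, (((α x).choose (β x) : ℂ) * q x ^ (α x - β x)) := by
      refine prod_congr rfl fun x hx => ?_
      have hx' : j ≠ x := fun h => (ne_of_mem_erase hx) h.symm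
      simp [Finsupp.single_eq_of_ne hx'.symm]
    rw [h2]
    simp only [Finsupp.add_apply, Finsupp.single_eq_same]
    have h3 : ((α j).choose (β j + 1) : ℂ) * ((β j : ℂ) + 1) =
        ((α j).choose (β j) : ℂ) * ((α j : ℂ) - (β j : ℂ)) := by
      rcases le_or_gt (β j) (α j) with h | h
      · have := Nat.choose_succ_right_eq (α j) (β j)
        have h4 : (((α j).choose (β j + 1) * (β j + 1) : ℕ) : ℂ) =
          (((α j).choose (β j) * (α j - β j) : ℕ) : ℂ) := by rw [this]
        push_cast [Nat.cast_sub h] at h4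
        exact h4
      · rw [Nat.choose_eq_zero_of_lt h, Nat.choose_eq_zero_of_lt (by omega)]
        simp
    have h4 : q j * ((β j : ℂ) + 1) *
        (((α j).choose (β j + 1) : ℂ) * q j ^ (α j - (β j + 1))) =
        ((α j : ℂ) - (β j : ℂ)) * (((α j).choose (β j) : ℂ) * q j ^ (α j - β j)) := by
      rcases lt_or_ge (β j) (α j) with h | h
      · have h5 : α j - β j = (α j - (β j + 1)) + 1 := by omega
        rw [h5, pow_succ]
        linear_combination (q j * q j ^ (α j - (β j + 1))) * h3
      · have h6 : (α j).choose (β j + 1) = 0 := Nat.choose_eq_zero_of_lt (by omega)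
        rw [h6] at h3 ⊢
        simp only [Nat.cast_zero, zero_mul, mul_zero] at h3 ⊢
        linear_combination (q j ^ (α j - β j)) * h3
    linear_combination
      (∏ x ∈ univ.erase j, (((α x).choose (β x) : ℂ) * q x ^ (α x - β x))) * h4
  rw [sum_congr rfl fun j _ => h1 j, ← sum_mul, sum_sub_distrib, Finsupp.degree_eq_sum,
    Finsupp.degree_eq_sum]
  push_cast
  rfl

end Pool.Agent.H18.Fat
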